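import Pool.Agent.Helper94.GA.Goals

/-! Packet GRDF: the optimal functional. -/

namespace Pool.Agent.Helper45.GA

open Finset Filter Topology
open scoped ComplexOrder
open Pool.Agent.Helper94.GA

theorem rank1 {e : ℕ} (w ψ : Fin e → ℂ) :
    star ψ ⬝ᵥ ((Matrix.vecMulVec w (star w)).mulVec ψ) = ((‖star ψ ⬝ᵥ w‖ ^ 2 : ℝ) : ℂ) := by
  have h1 : (Matrix.vecMulVec w (star w)).mulVec ψ = (star w ⬝ᵥ ψ) • w := by
    funext i
    simp only [Matrix.mulVec, Matrix.vecMulVec, dotProduct, Matrix.of_apply, Pi.smul_apply,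
      smul_eq_mul, Finset.sum_mul]
    refine Finset.sum_congr rfl fun j _ => ?_
    ring
  rw [h1, dotProduct_smul, smul_eq_mul, Matrix.star_dotProduct w ψ]
  have h2 := Complex.normSq_eq_conj_mul_self (z := star ψ ⬝ᵥ w)
  rw [Complex.normSq_eq_norm_sq] at h2
  rw [h2]
  rfl

theorem GRDF : GRDF_stmt := by
  intro e C _ _ lam v s hs t z
  set N := Nm lam v s t with hN
  set c : ℝ := 1 / (Fintype.card C : ℝ) with hc
  have hc0 : 0 ≤ c := by rw [hc]; positivity
  have hcC : (0 : ℂ) ≤ ((c : ℝ) : ℂ) := by exact_mod_cast hc0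
  -- positive definiteness
  have h1 : ((s : ℂ) • (1 : Matrix (Fin e) (Fin e) ℂ)).PosDef := by
    apply Matrix.PosDef.smul Matrix.PosDef.one
    exact_mod_cast hs
  have h2 : (∑ c', ∑ l ∈ range (t c'), ((c : ℝ) : ℂ) •
      Matrix.vecMulVec (wv lam v c' l) (star (wv lam v c' l))).PosSemidef := by
    apply Matrix.posSemidef_sum
    intro i _
    apply Matrix.posSemidef_sum
    intro j _
    exact (Matrix.posSemidef_vecMulVec_self_star _).smul hcC
  have hpd : N.PosDef := h1.add_posSemidef h2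
  have hu : IsUnit N.det := (Matrix.isUnit_iff_isUnit_det N).mp hpd.isUnit
  set ψ := N⁻¹.mulVec z with hψ
  have hNψ : N.mulVec ψ = z := by
    rw [hψ, Matrix.mulVec_mulVec, Matrix.mul_nonsing_inv _ hu, Matrix.one_mulVec]
  have hherm : N⁻¹.IsHermitian := hpd.inv.isHermitian
  have hsym : star ψ ⬝ᵥ z = star z ⬝ᵥ ψ := by
    rw [hψ, Matrix.star_mulVec, hherm.eq, ← Matrix.dotProduct_mulVec]
  have hreal : star (star ψ ⬝ᵥ z) = star ψ ⬝ᵥ z := by
    rw [← Matrix.star_dotProduct, hsym]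
  have hqa : qa N z = (star ψ ⬝ᵥ z).re := by
    rw [hsym]
    rfl
  have him : (star ψ ⬝ᵥ z).im = 0 := Complex.conj_eq_iff_im.mp hreal
  have hval : star ψ ⬝ᵥ z = (qa N z : ℂ) := by
    rw [hqa]
    apply Complex.ext
    · simp
    · simp [him]
  refine ⟨hpd, hval, ?_, ?_⟩
  · intro hz
    have h3 := hpd.inv.dotProduct_mulVec_pos hz
    exact (Complex.pos_iff.mp h3).1
  · have h4 : star ψ ⬝ᵥ z = ((s : ℂ) * (star ψ ⬝ᵥ ψ)) + ∑ c', ∑ l ∈ range (t c'),
        ((c * ‖star ψ ⬝ᵥ wv lam v c' l‖ ^ 2 : ℝ) : ℂ) := by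
      conv_lhs => rw [← hNψ]
      have e1 : N.mulVec ψ = (s : ℂ) • ψ + ∑ c', ∑ l ∈ range (t c'), ((c : ℝ) : ℂ) •
          (Matrix.vecMulVec (wv lam v c' l) (star (wv lam v c' l))).mulVec ψ := by
        rw [hN]
        unfold Nm
        rw [Matrix.add_mulVec, Matrix.smul_mulVec, Matrix.one_mulVec, Matrix.sum_mulVec]
        congr 1
        refine Finset.sum_congr rfl fun i _ => ?_
        rw [Matrix.sum_mulVec]
        refine Finset.sum_congr rfl fun j _ => ?_
        rw [Matrix.smul_mulVec]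
      rw [e1, dotProduct_add, dotProduct_smul, smul_eq_mul, dotProduct_sum]
      congr 1
      refine Finset.sum_congr rfl fun i _ => ?_
      rw [dotProduct_sum]
      refine Finset.sum_congr rfl fun j _ => ?_
      rw [dotProduct_smul, rank1, smul_eq_mul]
      push_cast
      ring
    have h5 : qa N z = s * (star ψ ⬝ᵥ ψ).re + ∑ c', ∑ l ∈ range (t c'),
        c * ‖star ψ ⬝ᵥ wv lam v c' l‖ ^ 2 := by
      rw [hqa, h4, Complex.add_re, Complex.re_ofReal_mul, Complex.re_sum]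
      congr 1
      refine Finset.sum_congr rfl fun i _ => ?_
      rw [Complex.re_sum]
      refine Finset.sum_congr rfl fun j _ => ?_
      rw [Complex.ofReal_re]
    have h6 : 0 ≤ (star ψ ⬝ᵥ ψ).re := by
      have := dotProduct_star_self_nonneg ψ
      exact (Complex.nonneg_iff.mp this).1
    rw [h5, Finset.mul_sum]
    have h7 : ∑ i, c * ∑ l ∈ range (t i), ‖star ψ ⬝ᵥ wv lam v i l‖ ^ 2 =
        ∑ c', ∑ l ∈ range (t c'), c * ‖star ψ ⬝ᵥ wv lam v c' l‖ ^ 2 := by
      refine Finset.sum_congr rfl fun i _ => ?_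
      rw [Finset.mul_sum]
    rw [h7]
    have := mul_nonneg hs.le h6
    linarith

end Pool.Agent.Helper45.GA
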